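import Pool.Agent.H24R2.DZ.Spec

set_option autoImplicit false

/-!
# Almost orthogonality on the range beyond the first period (task SBig)
-/

namespace Pool.Agent.W356.SD

open Complex MeasureTheory Set Filter Topology
open Pool.Agent.H24R2.DZ (ray)

/-- The exponential `exp(-(n x κ) i)`. -/
noncomputable def ee (κ x : ℝ) (n : ℕ) : ℂ := cexp (-(((n : ℝ) * x * κ : ℝ) : ℂ) * I)

theorem norm_ee (κ x : ℝ) (n : ℕ) : ‖ee κ x n‖ = 1 := by
  unfold ee
  rw [← Complex.ofReal_neg, Complex.norm_exp_ofReal_mul_I]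

theorem cont_ee (κ : ℝ) (n : ℕ) : Continuous fun x : ℝ => ee κ x n := by
  unfold ee
  fun_prop

theorem ee_mul_conj (κ x : ℝ) (n m : ℕ) :
    ee κ x n * (starRingEnd ℂ) (ee κ x m) = cexp ((-(((n : ℤ) - (m : ℤ) : ℤ) : ℂ) * κ * I) * x) := by
  unfold ee
  rw [← Complex.exp_conj, ← Complex.exp_add]
  congr 1
  simp only [map_mul, map_neg, Complex.conj_I, Complex.conj_ofReal]
  push_cast
  ring

theorem integral_ee (κ a : ℝ) (hκ : 0 < κ) (n m : ℕ) :
    ∫ x in a..(a + 2 * Real.pi / κ), ee κ x n * (starRingEnd ℂ) (ee κ x m) =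
      if n = m then ((2 * Real.pi / κ : ℝ) : ℂ) else 0 := by
  simp_rw [ee_mul_conj]
  split_ifs with h
  · subst h
    simp
  · have hne : ((n : ℤ) - (m : ℤ) : ℤ) ≠ 0 := by
      intro h0; apply h; exact_mod_cast (sub_eq_zero.mp h0)
    have hc : (-(((n : ℤ) - (m : ℤ) : ℤ) : ℂ) * κ * I) ≠ 0 := by
      refine mul_ne_zero (mul_ne_zero (neg_ne_zero.mpr (Int.cast_ne_zero.mpr hne)) ?_) I_ne_zero
      exact_mod_cast hκ.ne'
    rw [integral_exp_mul_complex hc]
    have hk : (κ : ℂ) ≠ 0 := by exact_mod_cast hκ.ne'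
    have he : cexp (-(((n : ℤ) - (m : ℤ) : ℤ) : ℂ) * κ * I * ((a + 2 * Real.pi / κ : ℝ) : ℂ)) =
        cexp (-(((n : ℤ) - (m : ℤ) : ℤ) : ℂ) * κ * I * (a : ℂ)) := by
      rw [Complex.exp_eq_exp_iff_exists_int]
      refine ⟨-((n : ℤ) - (m : ℤ)), ?_⟩
      push_cast
      field_simp
      ring
    rw [he, sub_self, zero_div]

/-- Parseval for a finite sum over one period. -/
theorem parseval (κ a : ℝ) (hκ : 0 < κ) (S : Finset ℕ) (c : ℕ → ℂ) :
    ∫ x in a..(a + 2 * Real.pi / κ), ‖∑ n ∈ S, c n * ee κ x n‖ ^ 2 =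
      2 * Real.pi / κ * ∑ n ∈ S, ‖c n‖ ^ 2 := by
  have hcx : ((∫ x in a..(a + 2 * Real.pi / κ), ‖∑ n ∈ S, c n * ee κ x n‖ ^ 2 : ℝ) : ℂ) =
      ((2 * Real.pi / κ * ∑ n ∈ S, ‖c n‖ ^ 2 : ℝ) : ℂ) := by
    rw [← intervalIntegral.integral_ofReal]
    have h1 : ∀ x : ℝ, (((‖∑ n ∈ S, c n * ee κ x n‖ ^ 2 : ℝ)) : ℂ) =
        ∑ n ∈ S, ∑ m ∈ S, (c n * (starRingEnd ℂ) (c m)) * (ee κ x n * (starRingEnd ℂ) (ee κ x m)) := by
      intro x
      rw [Complex.ofReal_pow, ← Complex.mul_conj', map_sum, Finset.sum_mul_sum]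
      refine Finset.sum_congr rfl fun n _ => Finset.sum_congr rfl fun m _ => ?_
      rw [map_mul]; ring
    simp_rw [h1]
    rw [intervalIntegral.integral_finsetSum]
    · have h2 : ∀ n ∈ S, (∫ x in a..(a + 2 * Real.pi / κ), ∑ m ∈ S,
          (c n * (starRingEnd ℂ) (c m)) * (ee κ x n * (starRingEnd ℂ) (ee κ x m))) =
          c n * (starRingEnd ℂ) (c n) * ((2 * Real.pi / κ : ℝ) : ℂ) := by
        intro n hn
        rw [intervalIntegral.integral_finsetSum]
        · have h3 : ∀ m ∈ S, (∫ x in a..(a + 2 * Real.pi / κ),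
              (c n * (starRingEnd ℂ) (c m)) * (ee κ x n * (starRingEnd ℂ) (ee κ x m))) =
              if n = m then c n * (starRingEnd ℂ) (c n) * ((2 * Real.pi / κ : ℝ) : ℂ) else 0 := by
            intro m _
            rw [intervalIntegral.integral_const_mul, integral_ee κ a hκ]
            split_ifs with h
            · subst h; rfl
            · simp
          rw [Finset.sum_congr rfl h3, Finset.sum_ite_eq]
          simp [hn]
        · intro m _
          apply Continuous.intervalIntegrable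
          exact continuous_const.mul ((cont_ee κ n).mul (Complex.continuous_conj.comp (cont_ee κ m)))
      rw [Finset.sum_congr rfl h2, ← Finset.sum_mul]
      push_cast
      rw [mul_comm]
      congr 1
      refine Finset.sum_congr rfl fun n _ => ?_
      rw [Complex.mul_conj']
    · intro n _
      apply Continuous.intervalIntegrable
      refine continuous_finsetSum _ fun m _ => ?_
      exact continuous_const.mul ((cont_ee κ n).mul (Complex.continuous_conj.comp (cont_ee κ m)))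
  exact_mod_cast hcx

/-- Cauchy-Schwarz on an interval. -/
theorem cs_interval (f : ℝ → ℝ) (hf : Continuous f) (a b : ℝ) (hab : a ≤ b) :
    (∫ x in a..b, f x) ^ 2 ≤ (b - a) * ∫ x in a..b, f x ^ 2 := by
  rcases eq_or_lt_of_le hab with h | h
  · subst h; simp
  set M := ∫ x in a..b, f x with hM
  have hpos : 0 < b - a := by linarith
  have h0 : 0 ≤ ∫ x in a..b, (f x - M / (b - a)) ^ 2 :=
    intervalIntegral.integral_nonneg hab fun x _ => sq_nonneg _
  have h1 : ∫ x in a..b, (f x - M / (b - a)) ^ 2 =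
      (∫ x in a..b, f x ^ 2) - 2 * (M / (b - a)) * M + (M / (b - a)) ^ 2 * (b - a) := by
    have e : ∀ x, (f x - M / (b - a)) ^ 2 = f x ^ 2 - (2 * (M / (b - a))) * f x + (M / (b - a)) ^ 2 := by
      intro x; ring
    simp_rw [e]
    rw [intervalIntegral.integral_add, intervalIntegral.integral_sub, intervalIntegral.integral_const_mul,
      intervalIntegral.integral_const, ← hM]
    · simp only [smul_eq_mul]; ring
    · exact (hf.pow 2).intervalIntegrable _ _
    · exact (continuous_const.mul hf).intervalIntegrable _ _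
    · exact ((hf.pow 2).sub (continuous_const.mul hf)).intervalIntegrable _ _
    · exact continuous_const.intervalIntegrable _ _
  rw [h1] at h0
  have h2 : (∫ x in a..b, f x ^ 2) - 2 * (M / (b - a)) * M + (M / (b - a)) ^ 2 * (b - a) =
      (∫ x in a..b, f x ^ 2) - M ^ 2 / (b - a) := by
    field_simp
    ring
  rw [h2] at h0
  have h3 : M ^ 2 / (b - a) ≤ ∫ x in a..b, f x ^ 2 := by linarith
  rw [div_le_iff₀ hpos] at h3
  linarith

/-- One block, finite sums. -/
theorem block (κ s a : ℝ) (hκ : 0 < κ) (hs : 0 ≤ s) (S : Finset ℕ) (c : ℕ → ℂ) :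
    ∫ x in a..(a + 2 * Real.pi / κ), ‖∑ n ∈ S, c n * (Real.exp (-(n * x * s)) : ℝ) * ee κ x n‖ ^ 2 ≤
      2 * (2 * Real.pi / κ) * ∑ n ∈ S, ‖c n‖ ^ 2 * ((1 + (2 * Real.pi / κ * (n * s)) ^ 2) *
        Real.exp (-(2 * n * a * s))) := by
  set P := 2 * Real.pi / κ with hP
  have hP0 : 0 < P := by positivity
  set h : ℝ → ℝ → ℂ := fun x y => ∑ n ∈ S, (c n * ((n * s * Real.exp (-(n * y * s)) : ℝ) : ℂ)) * ee κ x n
    with hh
  have hcont : Continuous fun q : ℝ × ℝ => h q.1 q.2 := by
    simp only [hh]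
    unfold ee
    fun_prop
  have hcontx : ∀ x, Continuous fun y => h x y := fun x => by
    simp only [hh]; fun_prop
  -- pointwise identity
  have hid : ∀ x, ∑ n ∈ S, c n * (Real.exp (-(n * x * s)) : ℝ) * ee κ x n =
      (∑ n ∈ S, (c n * (Real.exp (-(n * a * s)) : ℝ)) * ee κ x n) - ∫ y in a..x, h x y := by
    intro x
    simp only [hh]
    rw [intervalIntegral.integral_finsetSum]
    · rw [← Finset.sum_sub_distrib]
      refine Finset.sum_congr rfl fun n _ => ?_
      have e1 : ∀ y : ℝ, (c n * ((n * s * Real.exp (-(n * y * s)) : ℝ) : ℂ)) * ee κ x n =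
          (c n * ee κ x n) * ((n * s * Real.exp (-(n * y * s)) : ℝ) : ℂ) := fun y => by ring
      simp_rw [e1]
      rw [intervalIntegral.integral_const_mul, intervalIntegral.integral_ofReal]
      have e2 : ∫ y in a..x, (n * s * Real.exp (-(n * y * s)) : ℝ) =
          Real.exp (-(n * a * s)) - Real.exp (-(n * x * s)) := by
        have hd : ∀ y ∈ uIcc a x, HasDerivAt (fun y : ℝ => -Real.exp (-(n * y * s)))
            (n * s * Real.exp (-(n * y * s))) y := by
          intro y _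
          have : HasDerivAt (fun y : ℝ => -(n * y * s)) (-(n * 1 * s)) y :=
            (((hasDerivAt_id y).const_mul (n : ℝ)).mul_const s).neg
          have h1 : HasDerivAt (fun y : ℝ => -Real.exp (-(n * y * s)))
              (-(Real.exp (-(n * y * s)) * (-(n * 1 * s)))) y := this.exp.neg
          exact h1.congr_deriv (by ring)
        rw [intervalIntegral.integral_eq_sub_of_hasDerivAt hd]
        · ring
        · apply Continuous.intervalIntegrable; fun_prop
      rw [e2]
      push_cast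
      ring
    · intro n _
      apply Continuous.intervalIntegrable
      fun_prop
  have hpt : ∀ x ∈ Icc a (a + P), ‖∑ n ∈ S, c n * (Real.exp (-(n * x * s)) : ℝ) * ee κ x n‖ ^ 2 ≤
      2 * ‖∑ n ∈ S, (c n * (Real.exp (-(n * a * s)) : ℝ)) * ee κ x n‖ ^ 2 +
        2 * (P * ∫ y in a..(a + P), ‖h x y‖ ^ 2) := by
    intro x hx
    rw [hid x]
    set A := ∑ n ∈ S, (c n * (Real.exp (-(n * a * s)) : ℝ)) * ee κ x n
    have h1 : ‖∫ y in a..x, h x y‖ ≤ ∫ y in a..(a + P), ‖h x y‖ := by
      refine (intervalIntegral.norm_integral_le_integral_norm hx.1).trans ?_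
      exact intervalIntegral.integral_mono_interval le_rfl hx.1 hx.2
        (Eventually.of_forall fun y => norm_nonneg _) ((hcontx x).norm.intervalIntegrable _ _)
    have h2 : ‖∫ y in a..x, h x y‖ ^ 2 ≤ P * ∫ y in a..(a + P), ‖h x y‖ ^ 2 := by
      have := cs_interval (fun y => ‖h x y‖) (hcontx x).norm a (a + P) (by linarith)
      have e : a + P - a = P := by ring
      rw [e] at this
      refine le_trans ?_ this
      gcongr
    have h3 : ‖A - ∫ y in a..x, h x y‖ ≤ ‖A‖ + ‖∫ y in a..x, h x y‖ := norm_sub_le _ _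
    have h4 : ‖A - ∫ y in a..x, h x y‖ ^ 2 ≤ (‖A‖ + ‖∫ y in a..x, h x y‖) ^ 2 := by gcongr
    nlinarith [sq_nonneg (‖A‖ - ‖∫ y in a..x, h x y‖)]
  have hc1 : Continuous fun x => ‖∑ n ∈ S, c n * (Real.exp (-(n * x * s)) : ℝ) * ee κ x n‖ ^ 2 := by
    unfold ee; fun_prop
  have hc2 : Continuous fun x => ‖∑ n ∈ S, (c n * (Real.exp (-(n * a * s)) : ℝ)) * ee κ x n‖ ^ 2 := by
    unfold ee; fun_prop
  have hc3 : Continuous fun x => ∫ y in a..(a + P), ‖h x y‖ ^ 2 := by
    apply intervalIntegral.continuous_parametric_intervalIntegral_of_continuous'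
    exact (hcont.norm.pow 2)
  calc ∫ x in a..(a + P), ‖∑ n ∈ S, c n * (Real.exp (-(n * x * s)) : ℝ) * ee κ x n‖ ^ 2
      ≤ ∫ x in a..(a + P), (2 * ‖∑ n ∈ S, (c n * (Real.exp (-(n * a * s)) : ℝ)) * ee κ x n‖ ^ 2 +
        2 * (P * ∫ y in a..(a + P), ‖h x y‖ ^ 2)) := by
        apply intervalIntegral.integral_mono_on (by linarith) (hc1.intervalIntegrable _ _)
        · exact ((continuous_const.mul hc2).add
            (continuous_const.mul (continuous_const.mul hc3))).intervalIntegrable _ _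
        · exact hpt
    _ = 2 * (∫ x in a..(a + P), ‖∑ n ∈ S, (c n * (Real.exp (-(n * a * s)) : ℝ)) * ee κ x n‖ ^ 2) +
        2 * (P * ∫ x in a..(a + P), ∫ y in a..(a + P), ‖h x y‖ ^ 2) := by
        rw [intervalIntegral.integral_add, intervalIntegral.integral_const_mul,
          intervalIntegral.integral_const_mul, intervalIntegral.integral_const_mul]
        · exact (continuous_const.mul hc2).intervalIntegrable _ _
        · exact (continuous_const.mul (continuous_const.mul hc3)).intervalIntegrable _ _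
    _ = 2 * (∫ x in a..(a + P), ‖∑ n ∈ S, (c n * (Real.exp (-(n * a * s)) : ℝ)) * ee κ x n‖ ^ 2) +
        2 * (P * ∫ y in a..(a + P), ∫ x in a..(a + P), ‖h x y‖ ^ 2) := by
        congr 3
        refine intervalIntegral_intervalIntegral_swap ?_
        have h1 : IntegrableOn (fun q : ℝ × ℝ => ‖h q.1 q.2‖ ^ 2) (Icc a (a + P) ×ˢ Icc a (a + P)) :=
          (hcont.norm.pow 2).continuousOn.integrableOn_compact (isCompact_Icc.prod isCompact_Icc)
        refine h1.mono_set ?_
        rw [uIoc_of_le (by linarith)]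
        exact prod_mono Ioc_subset_Icc_self Ioc_subset_Icc_self
    _ ≤ 2 * (P * ∑ n ∈ S, ‖c n‖ ^ 2 * Real.exp (-(2 * n * a * s))) +
        2 * (P * (P * (P * ∑ n ∈ S, ‖c n‖ ^ 2 * ((n * s) ^ 2 * Real.exp (-(2 * n * a * s)))))) := by
        have e1 : (∫ x in a..(a + P), ‖∑ n ∈ S, (c n * (Real.exp (-(n * a * s)) : ℝ)) * ee κ x n‖ ^ 2) =
            P * ∑ n ∈ S, ‖c n‖ ^ 2 * Real.exp (-(2 * n * a * s)) := by
          rw [hP, parseval κ a hκ S (fun n => c n * (Real.exp (-(n * a * s)) : ℝ))]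
          congr 1
          refine Finset.sum_congr rfl fun n _ => ?_
          rw [norm_mul, mul_pow, Complex.norm_real, Real.norm_of_nonneg (Real.exp_pos _).le,
            ← Real.exp_nat_mul]
          congr 2
          push_cast; ring
        have e2 : ∀ y ∈ Icc a (a + P), (∫ x in a..(a + P), ‖h x y‖ ^ 2) ≤
            P * ∑ n ∈ S, ‖c n‖ ^ 2 * ((n * s) ^ 2 * Real.exp (-(2 * n * a * s))) := by
          intro y hy
          simp only [hh]
          rw [hP, parseval κ a hκ S (fun n => c n * ((n * s * Real.exp (-(n * y * s)) : ℝ) : ℂ))]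
          rw [← hP]
          apply mul_le_mul_of_nonneg_left _ hP0.le
          refine Finset.sum_le_sum fun n _ => ?_
          rw [norm_mul, mul_pow, Complex.norm_real, Real.norm_eq_abs, sq_abs, mul_pow, ← Real.exp_nat_mul]
          gcongr
          push_cast
          have : (n : ℝ) * a * s ≤ n * y * s := by
            have := hy.1
            gcongr
          linarith
        rw [e1]
        gcongr
        have e3 : ∫ y in a..(a + P), ∫ x in a..(a + P), ‖h x y‖ ^ 2 ≤
            ∫ y in a..(a + P), P * ∑ n ∈ S, ‖c n‖ ^ 2 * ((n * s) ^ 2 * Real.exp (-(2 * n * a * s))) := by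
          apply intervalIntegral.integral_mono_on (by linarith) _ (continuous_const.intervalIntegrable _ _) e2
          apply Continuous.intervalIntegrable
          apply intervalIntegral.continuous_parametric_intervalIntegral_of_continuous'
          exact ((hcont.comp continuous_swap).norm.pow 2)
        refine e3.trans (le_of_eq ?_)
        rw [intervalIntegral.integral_const]
        simp only [smul_eq_mul]; ring
    _ = 2 * P * ∑ n ∈ S, ‖c n‖ ^ 2 * ((1 + (P * (n * s)) ^ 2) * Real.exp (-(2 * n * a * s))) := by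
        rw [show (2 * P * ∑ n ∈ S, ‖c n‖ ^ 2 * ((1 + (P * (n * s)) ^ 2) * Real.exp (-(2 * n * a * s)))) =
          2 * (P * (∑ n ∈ S, ‖c n‖ ^ 2 * Real.exp (-(2 * n * a * s)))) +
          2 * (P * (P * (P * ∑ n ∈ S, ‖c n‖ ^ 2 * ((n * s) ^ 2 * Real.exp (-(2 * n * a * s)))))) from ?_]
        simp_rw [Finset.mul_sum]
        rw [← Finset.sum_add_distrib]
        refine Finset.sum_congr rfl fun n _ => ?_
        ring

/-- `(1 + w ^ 2) (1 + w) ≤ 216 exp (w / 2)`. -/
theorem poly_le_exp (w : ℝ) (hw : 0 ≤ w) : (1 + w ^ 2) * (1 + w) ≤ 216 * Real.exp (w / 2) := by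
  have h1 : 1 + w / 6 ≤ Real.exp (w / 6) := by linarith [Real.add_one_le_exp (w / 6)]
  have h2 : (1 + w / 6) ^ 3 ≤ Real.exp (w / 6) ^ 3 := by gcongr
  rw [← Real.exp_nat_mul] at h2
  have h3 : ((3 : ℕ) : ℝ) * (w / 6) = w / 2 := by push_cast; ring
  rw [h3] at h2
  have h4 : (1 + w ^ 2) * (1 + w) ≤ 216 * (1 + w / 6) ^ 3 := by
    nlinarith [mul_nonneg hw hw, mul_nonneg hw (mul_nonneg hw hw)]
  linarith

/-- The sum over the blocks of the weights. -/
theorem weights (P v α : ℝ) (hP : 0 < P) (hv : 0 < v) (hα0 : 0 ≤ α) (hα1 : α ≤ 1) (K : ℕ) :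
    ∑ k ∈ Finset.Icc 1 K, (((k : ℝ) + 1) * P) ^ α * (2 * P * ((1 + (P * v) ^ 2) *
      Real.exp (-(2 * v * (k * P))))) ≤ 864 * (v ^ (-(α + 1)) * Real.exp (-(P * v / 2))) := by
  set w := P * v with hw
  have hw0 : 0 < w := by positivity
  have hterm : ∀ k ∈ Finset.Icc 1 K, (((k : ℝ) + 1) * P) ^ α * (2 * P * ((1 + w ^ 2) *
      Real.exp (-(2 * v * (k * P))))) ≤ 4 * P * (1 + w ^ 2) * v ^ (-α) * Real.exp (-w) ^ k := by
    intro k hk
    have hk1 : (1 : ℝ) ≤ k := by exact_mod_cast (Finset.mem_Icc.mp hk).1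
    have hk0 : (0 : ℝ) < k := by linarith
    have e1 : (((k : ℝ) + 1) * P) ^ α ≤ 2 * ((k : ℝ) * P) ^ α := by
      calc (((k : ℝ) + 1) * P) ^ α ≤ (2 * ((k : ℝ) * P)) ^ α := by
            apply Real.rpow_le_rpow (by positivity) _ hα0
            nlinarith
        _ = 2 ^ α * ((k : ℝ) * P) ^ α := Real.mul_rpow (by norm_num) (by positivity)
        _ ≤ 2 * ((k : ℝ) * P) ^ α := by
            gcongr
            calc (2 : ℝ) ^ α ≤ 2 ^ (1 : ℝ) := Real.rpow_le_rpow_of_exponent_le (by norm_num) hα1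
              _ = 2 := Real.rpow_one 2
    have e2 : ((k : ℝ) * P) ^ α * Real.exp (-(2 * v * (k * P))) ≤ v ^ (-α) * Real.exp (-w) ^ k := by
      have h1 : (v * ((k : ℝ) * P)) ^ α ≤ Real.exp (v * ((k : ℝ) * P)) := by
        have hz : 0 < v * ((k : ℝ) * P) := by positivity
        rcases le_total (v * ((k : ℝ) * P)) 1 with h | h
        · exact (Real.rpow_le_one hz.le h hα0).trans (Real.one_le_exp hz.le)
        · calc (v * ((k : ℝ) * P)) ^ α ≤ (v * ((k : ℝ) * P)) ^ (1 : ℝ) :=
                Real.rpow_le_rpow_of_exponent_le h hα1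
            _ = v * ((k : ℝ) * P) := Real.rpow_one _
            _ ≤ _ := by linarith [Real.add_one_le_exp (v * ((k : ℝ) * P))]
      rw [Real.mul_rpow hv.le (by positivity)] at h1
      have h2 : ((k : ℝ) * P) ^ α ≤ v ^ (-α) * Real.exp (v * ((k : ℝ) * P)) := by
        have h3 : v ^ (-α) * v ^ α = 1 := by
          rw [← Real.rpow_add hv]; simp
        calc ((k : ℝ) * P) ^ α = v ^ (-α) * (v ^ α * ((k : ℝ) * P) ^ α) := by
              rw [← mul_assoc, h3, one_mul]
          _ ≤ v ^ (-α) * Real.exp (v * ((k : ℝ) * P)) := by gcongr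
      calc ((k : ℝ) * P) ^ α * Real.exp (-(2 * v * (k * P)))
          ≤ (v ^ (-α) * Real.exp (v * ((k : ℝ) * P))) * Real.exp (-(2 * v * (k * P))) := by gcongr
        _ = v ^ (-α) * Real.exp (-w) ^ k := by
            rw [mul_assoc, ← Real.exp_add, ← Real.exp_nat_mul]
            congr 2
            rw [hw]; ring
    calc (((k : ℝ) + 1) * P) ^ α * (2 * P * ((1 + w ^ 2) * Real.exp (-(2 * v * (k * P)))))
        ≤ (2 * ((k : ℝ) * P) ^ α) * (2 * P * ((1 + w ^ 2) * Real.exp (-(2 * v * (k * P))))) := by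
          gcongr
      _ = 4 * P * (1 + w ^ 2) * (((k : ℝ) * P) ^ α * Real.exp (-(2 * v * (k * P)))) := by ring
      _ ≤ 4 * P * (1 + w ^ 2) * (v ^ (-α) * Real.exp (-w) ^ k) := by gcongr
      _ = _ := by ring
  refine (Finset.sum_le_sum hterm).trans ?_
  rw [← Finset.mul_sum]
  have hgeo : ∑ k ∈ Finset.Icc 1 K, Real.exp (-w) ^ k ≤ Real.exp (-w) * (1 + 1 / w) := by
    have hr1 : Real.exp (-w) < 1 := by rw [Real.exp_lt_one_iff]; linarith
    have hr0 : 0 < Real.exp (-w) := Real.exp_pos _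
    have e1 : ∑ k ∈ Finset.Icc 1 K, Real.exp (-w) ^ k = Real.exp (-w) * ∑ k ∈ Finset.range K, Real.exp (-w) ^ k := by
      rw [Finset.mul_sum]
      have : Finset.Icc 1 K = (Finset.range K).image (fun k => k + 1) := by
        ext j
        simp only [Finset.mem_Icc, Finset.mem_image, Finset.mem_range]
        constructor
        · rintro ⟨h1, h2⟩
          exact ⟨j - 1, by omega, by omega⟩
        · rintro ⟨i, h1, h2⟩
          omega
      rw [this, Finset.sum_image (fun a _ b _ h => by simpa using h)]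
      refine Finset.sum_congr rfl fun k _ => ?_
      rw [pow_succ]; ring
    rw [e1]
    apply mul_le_mul_of_nonneg_left _ hr0.le
    have e2 : ∑ k ∈ Finset.range K, Real.exp (-w) ^ k ≤ (1 - Real.exp (-w))⁻¹ := by
      have h1 : 0 < 1 - Real.exp (-w) := by linarith
      have h2 := geom_sum_mul_neg (Real.exp (-w)) K
      rw [inv_eq_one_div, le_div_iff₀ h1, h2]
      linarith [pow_nonneg hr0.le K]
    refine e2.trans ?_
    have h1 : 1 + w ≤ Real.exp w := by linarith [Real.add_one_le_exp w]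
    have h2 : Real.exp (-w) ≤ 1 / (1 + w) := by
      rw [Real.exp_neg, inv_eq_one_div]
      apply one_div_le_one_div_of_le (by linarith) h1
    have h3 : w / (1 + w) ≤ 1 - Real.exp (-w) := by
      have : 1 - 1 / (1 + w) = w / (1 + w) := by field_simp; ring
      linarith
    calc (1 - Real.exp (-w))⁻¹ ≤ (w / (1 + w))⁻¹ := by
          apply inv_anti₀ (by positivity) h3
      _ = 1 + 1 / w := by field_simp; ring
  calc 4 * P * (1 + w ^ 2) * v ^ (-α) * ∑ k ∈ Finset.Icc 1 K, Real.exp (-w) ^ k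
      ≤ 4 * P * (1 + w ^ 2) * v ^ (-α) * (Real.exp (-w) * (1 + 1 / w)) := by gcongr
    _ = 4 * (v ^ (-(α + 1)) * Real.exp (-w) * ((1 + w ^ 2) * (1 + w))) := by
        have h1 : v ^ (-(α + 1)) = v ^ (-α) * v⁻¹ := by
          rw [show -(α + 1) = -α + (-1) by ring, Real.rpow_add hv, Real.rpow_neg_one]
        rw [h1, hw]
        field_simp
        ring
    _ ≤ 4 * (v ^ (-(α + 1)) * Real.exp (-w) * (216 * Real.exp (w / 2))) := by
        exact mul_le_mul_of_nonneg_left (mul_le_mul_of_nonneg_left (poly_le_exp w hw0.le) (by positivity))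
          (by norm_num)
    _ = 864 * (v ^ (-(α + 1)) * Real.exp (-(w / 2))) := by
        have : Real.exp (-(w / 2)) = Real.exp (-w) * Real.exp (w / 2) := by
          rw [← Real.exp_add]; congr 1; ring
        rw [this]; ring

theorem ray_eq (δ x : ℝ) (n : ℕ) :
    cexp (-(n * ray δ x)) = (Real.exp (-(n * x * Real.sin δ)) : ℝ) * ee (Real.cos δ) x n := by
  unfold ray ee
  rw [Complex.ofReal_exp, ← Complex.exp_add]
  congr 1
  have h1 : cexp (I * ((Real.pi / 2 - δ : ℝ) : ℂ)) = (Real.sin δ : ℂ) + (Real.cos δ : ℂ) * I := by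
    rw [mul_comm, Complex.exp_mul_I, ← Complex.ofReal_cos, ← Complex.ofReal_sin, Real.cos_pi_div_two_sub,
      Real.sin_pi_div_two_sub]
  rw [h1]
  push_cast
  ring

/-- Finite sums, finite range. -/
theorem fin_range (κ s α : ℝ) (hκ : 0 < κ) (hs : 0 < s) (hα0 : 0 ≤ α) (hα1 : α ≤ 1) (S : Finset ℕ)
    (c : ℕ → ℂ) (hc0 : c 0 = 0) (K : ℕ) :
    ∫ x in (2 * Real.pi / κ)..((K + 1 : ℝ) * (2 * Real.pi / κ)),
      ‖∑ n ∈ S, c n * (Real.exp (-(n * x * s)) : ℝ) * ee κ x n‖ ^ 2 * x ^ α ≤
      864 * ∑ n ∈ S, ‖c n‖ ^ 2 * ((n * s) ^ (-(α + 1)) * Real.exp (-(2 * Real.pi / κ * (n * s) / 2))) := by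
  set P := 2 * Real.pi / κ with hP
  have hP0 : 0 < P := by positivity
  have hc1 : Continuous fun x => ‖∑ n ∈ S, c n * (Real.exp (-(n * x * s)) : ℝ) * ee κ x n‖ ^ 2 := by
    unfold ee; fun_prop
  have hc2 : ContinuousOn (fun x : ℝ => x ^ α) (Ici P) := by
    intro x hx
    have : x ≠ 0 := by have := mem_Ici.mp hx; intro h; linarith
    exact (Real.continuousAt_rpow_const x α (Or.inl this)).continuousWithinAt
  have hint : ∀ a b : ℝ, P ≤ a → P ≤ b → IntervalIntegrable
      (fun x => ‖∑ n ∈ S, c n * (Real.exp (-(n * x * s)) : ℝ) * ee κ x n‖ ^ 2 * x ^ α) volume a b := by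
    intro a b ha hb
    apply ContinuousOn.intervalIntegrable
    refine hc1.continuousOn.mul (hc2.mono ?_)
    intro x hx
    rw [mem_uIcc] at hx
    rcases hx with h | h
    · exact ha.trans h.1
    · exact hb.trans h.1
  have key : ∀ K : ℕ, ∫ x in P..((K + 1 : ℝ) * P),
      ‖∑ n ∈ S, c n * (Real.exp (-(n * x * s)) : ℝ) * ee κ x n‖ ^ 2 * x ^ α ≤
      ∑ n ∈ S, ‖c n‖ ^ 2 * ∑ k ∈ Finset.Icc 1 K, (((k : ℝ) + 1) * P) ^ α * (2 * P * ((1 + (P * (n * s)) ^ 2) *
        Real.exp (-(2 * (n * s) * (k * P))))) := by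
    intro K
    induction K with
    | zero => simp
    | succ K ih =>
      have hle1 : P ≤ ((K : ℝ) + 1) * P := by nlinarith [Nat.cast_nonneg (α := ℝ) K]
      have hle2 : ((K : ℝ) + 1) * P ≤ ((K : ℝ) + 1) * P + P := by linarith
      have e0 : (((K + 1 : ℕ) : ℝ) + 1) * P = ((K : ℝ) + 1) * P + P := by push_cast; ring
      rw [e0, ← intervalIntegral.integral_add_adjacent_intervals (hint _ _ le_rfl hle1)
        (hint _ _ hle1 (hle1.trans hle2))]
      have e1 : ∀ n ∈ S, ‖c n‖ ^ 2 * ∑ k ∈ Finset.Icc 1 (K + 1), (((k : ℝ) + 1) * P) ^ α *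
          (2 * P * ((1 + (P * (n * s)) ^ 2) * Real.exp (-(2 * (n * s) * (k * P))))) =
          ‖c n‖ ^ 2 * ∑ k ∈ Finset.Icc 1 K, (((k : ℝ) + 1) * P) ^ α *
          (2 * P * ((1 + (P * (n * s)) ^ 2) * Real.exp (-(2 * (n * s) * (k * P))))) +
          ‖c n‖ ^ 2 * ((((K + 1 : ℕ) : ℝ) + 1) * P) ^ α *
          (2 * P * ((1 + (P * (n * s)) ^ 2) * Real.exp (-(2 * (n * s) * (((K + 1 : ℕ) : ℝ) * P))))) := by
        intro n _
        rw [Finset.sum_Icc_succ_top (by omega)]
        ring
      rw [Finset.sum_congr rfl e1, Finset.sum_add_distrib]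
      refine add_le_add ih ?_
      have hb := block κ s (((K : ℝ) + 1) * P) hκ hs.le S c
      rw [← hP] at hb
      calc ∫ x in (((K : ℝ) + 1) * P)..(((K : ℝ) + 1) * P + P),
            ‖∑ n ∈ S, c n * (Real.exp (-(n * x * s)) : ℝ) * ee κ x n‖ ^ 2 * x ^ α
          ≤ ∫ x in (((K : ℝ) + 1) * P)..(((K : ℝ) + 1) * P + P),
            ‖∑ n ∈ S, c n * (Real.exp (-(n * x * s)) : ℝ) * ee κ x n‖ ^ 2 * (((K : ℝ) + 1) * P + P) ^ α := by
            apply intervalIntegral.integral_mono_on hle2 (hint _ _ hle1 (hle1.trans hle2))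
            · exact (hc1.mul continuous_const).intervalIntegrable _ _
            · intro x hx
              have hx0 : 0 ≤ x := by linarith [hx.1]
              have := hx.2
              gcongr
        _ = (∫ x in (((K : ℝ) + 1) * P)..(((K : ℝ) + 1) * P + P),
            ‖∑ n ∈ S, c n * (Real.exp (-(n * x * s)) : ℝ) * ee κ x n‖ ^ 2) * (((K : ℝ) + 1) * P + P) ^ α := by
            rw [intervalIntegral.integral_mul_const]
        _ ≤ (2 * P * ∑ n ∈ S, ‖c n‖ ^ 2 * ((1 + (P * (n * s)) ^ 2) *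
              Real.exp (-(2 * n * (((K : ℝ) + 1) * P) * s)))) * (((K : ℝ) + 1) * P + P) ^ α := by
            gcongr
        _ = _ := by
            rw [Finset.mul_sum, Finset.sum_mul]
            refine Finset.sum_congr rfl fun n _ => ?_
            rw [e0]
            push_cast
            rw [show (2 * (n : ℝ) * (((K : ℝ) + 1) * P) * s) = 2 * (n * s) * (((K : ℝ) + 1) * P) by ring]
            ring
  refine (key K).trans ?_
  rw [Finset.mul_sum]
  refine Finset.sum_le_sum fun n _ => ?_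
  rcases Nat.eq_zero_or_pos n with h | h
  · subst h; simp [hc0]
  · have hn : (0 : ℝ) < n := by exact_mod_cast h
    have := weights P (n * s) α hP0 (by positivity) hα0 hα1 K
    calc _ ≤ ‖c n‖ ^ 2 * (864 * ((n * s) ^ (-(α + 1)) * Real.exp (-(P * (n * s) / 2)))) := by
          gcongr
      _ = _ := by ring

theorem sbig : Pool.Agent.H24R2.DZ.SBig := by
  refine ⟨3456, by norm_num, ?_⟩
  intro δ σ B c hδ0 hδ1 hσ0 hσ1 hB hc0
  set s := Real.sin δ with hs
  set κ := Real.cos δ with hκ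
  have hpi : 3 < Real.pi := Real.pi_gt_three
  have hs0 : 0 < s := Real.sin_pos_of_pos_of_lt_pi hδ0 (by linarith)
  have hκ0 : 0 < κ := Real.cos_pos_of_mem_Ioo ⟨by linarith, by linarith⟩
  have hκ1 : κ ≤ 1 := Real.cos_le_one δ
  have hsδ : δ / 2 ≤ s := by
    have h1 := Real.mul_le_sin hδ0.le (by linarith : δ ≤ Real.pi / 2)
    have h2 : (1 : ℝ) / 2 ≤ 2 / Real.pi := by
      rw [div_le_div_iff₀ (by norm_num) Real.pi_pos]
      linarith [Real.pi_le_four]
    calc δ / 2 = 1 / 2 * δ := by ring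
      _ ≤ 2 / Real.pi * δ := by gcongr
      _ ≤ s := h1
  set P := 2 * Real.pi / κ with hP
  have hP0 : 0 < P := by positivity
  have hP6 : 6 ≤ P := by
    rw [hP, le_div_iff₀ hκ0]; nlinarith
  -- the right-hand side
  set g : ℕ → ℝ := fun n => ‖c n‖ ^ 2 * (n * δ) ^ (-(2 * σ)) * Real.exp (-(n * δ)) with hg
  have hg0 : ∀ n, 0 ≤ g n := fun n => by positivity
  have hB0 : 0 ≤ B := (norm_nonneg _).trans (hB 0)
  have hgs : Summable g := by
    have hs1 : Summable fun n : ℕ => B ^ 2 * δ ^ (-(2 * σ)) * Real.exp (-(n * δ)) := by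
      apply Summable.mul_left
      have : Summable fun n : ℕ => Real.exp (-δ) ^ n :=
        summable_geometric_of_lt_one (Real.exp_pos _).le (by rw [Real.exp_lt_one_iff]; linarith)
      refine this.congr fun n => ?_
      rw [← Real.exp_nat_mul]; congr 1; ring
    refine Summable.of_nonneg_of_le hg0 (fun n => ?_) hs1
    rcases Nat.eq_zero_or_pos n with h | h
    · subst h; simp only [hg, hc0]; simp; positivity
    · have hn : (1 : ℝ) ≤ n := by exact_mod_cast h
      simp only [hg]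
      have h1 : ‖c n‖ ^ 2 ≤ B ^ 2 := by have := hB n; gcongr
      have h2 : ((n : ℝ) * δ) ^ (-(2 * σ)) ≤ δ ^ (-(2 * σ)) := by
        apply Real.rpow_le_rpow_of_nonpos hδ0 (by nlinarith) (by linarith)
      gcongr
  have hR0 : 0 ≤ 3456 * ∑' n, g n := mul_nonneg (by norm_num) (tsum_nonneg hg0)
  -- finite sums
  set fN : ℕ → ℝ → ℂ := fun N x => ∑ n ∈ Finset.range N, c n * (Real.exp (-(n * x * s)) : ℝ) * ee κ x n
    with hfN
  have hfin : ∀ N K : ℕ, ∫ x in P..((K + 1 : ℝ) * P), ‖fN N x‖ ^ 2 * x ^ (2 * σ - 1) ≤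
      3456 * ∑' n, g n := by
    intro N K
    have h1 := fin_range κ s (2 * σ - 1) hκ0 hs0 (by linarith) (by linarith) (Finset.range N) c hc0 K
    rw [← hP] at h1
    refine h1.trans ?_
    have h2 : 864 * ∑ n ∈ Finset.range N, ‖c n‖ ^ 2 * ((n * s) ^ (-(2 * σ - 1 + 1)) *
        Real.exp (-(P * (n * s) / 2))) ≤ 3456 * ∑ n ∈ Finset.range N, g n := by
      rw [Finset.mul_sum, Finset.mul_sum]
      refine Finset.sum_le_sum fun n _ => ?_
      rcases Nat.eq_zero_or_pos n with h | h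
      · subst h; simp [hg, hc0]
      · have hn : (1 : ℝ) ≤ n := by exact_mod_cast h
        simp only [hg]
        have e1 : ((n : ℝ) * s) ^ (-(2 * σ - 1 + 1)) ≤ 4 * ((n : ℝ) * δ) ^ (-(2 * σ)) := by
          rw [show -(2 * σ - 1 + 1) = -(2 * σ) by ring]
          calc ((n : ℝ) * s) ^ (-(2 * σ)) ≤ ((1 / 2) * ((n : ℝ) * δ)) ^ (-(2 * σ)) := by
                apply Real.rpow_le_rpow_of_nonpos (by positivity) (by nlinarith) (by linarith)
            _ = (1 / 2 : ℝ) ^ (-(2 * σ)) * ((n : ℝ) * δ) ^ (-(2 * σ)) :=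
                Real.mul_rpow (by norm_num) (by positivity)
            _ ≤ 4 * ((n : ℝ) * δ) ^ (-(2 * σ)) := by
                gcongr
                calc (1 / 2 : ℝ) ^ (-(2 * σ)) ≤ (1 / 2 : ℝ) ^ (-2 : ℝ) :=
                      Real.rpow_le_rpow_of_exponent_ge (by norm_num) (by norm_num) (by linarith)
                  _ = 4 := by
                      rw [show (-2 : ℝ) = ((-2 : ℤ) : ℝ) by norm_num, Real.rpow_intCast]
                      norm_num
        have e2 : Real.exp (-(P * (n * s) / 2)) ≤ Real.exp (-(n * δ)) := by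
          apply Real.exp_le_exp.mpr
          have : 6 * ((n : ℝ) * (δ / 2)) ≤ P * (n * s) := by gcongr
          nlinarith [mul_pos (lt_of_lt_of_le one_pos hn) hδ0]
        calc 864 * (‖c n‖ ^ 2 * ((n * s) ^ (-(2 * σ - 1 + 1)) * Real.exp (-(P * (n * s) / 2))))
            ≤ 864 * (‖c n‖ ^ 2 * ((4 * ((n : ℝ) * δ) ^ (-(2 * σ))) * Real.exp (-(n * δ)))) := by
              gcongr
          _ = _ := by ring
    refine h2.trans ?_
    gcongr
    exact hgs.sum_le_tsum _ (fun n _ => hg0 n)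
  -- the limit
  set f : ℝ → ℂ := fun x => ∑' n : ℕ, c n * cexp (-(n * ray δ x)) with hf
  have hlim : ∀ x : ℝ, 0 < x → Tendsto (fun N => fN N x) atTop (𝓝 (f x)) := by
    intro x hx
    have hterm : ∀ n : ℕ, c n * cexp (-(n * ray δ x)) = c n * (Real.exp (-(n * x * s)) : ℝ) * ee κ x n := by
      intro n; rw [ray_eq]; ring
    have hsum : Summable fun n : ℕ => c n * cexp (-(n * ray δ x)) := by
      apply Summable.of_norm_bounded (g := fun n : ℕ => B * Real.exp (-(x * s)) ^ n)
      · apply Summable.mul_left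
        exact summable_geometric_of_lt_one (Real.exp_pos _).le
          (by rw [Real.exp_lt_one_iff]; nlinarith [mul_pos hx hs0])
      · intro n
        rw [hterm n, norm_mul, norm_mul, norm_ee, mul_one, Complex.norm_real,
          Real.norm_of_nonneg (Real.exp_pos _).le, ← Real.exp_nat_mul]
        have := hB n
        rw [show (n : ℝ) * -(x * s) = -(n * x * s) by ring]
        gcongr
    have := hsum.hasSum.tendsto_sum_nat
    refine this.congr fun N => ?_
    simp only [hfN]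
    exact Finset.sum_congr rfl fun n _ => hterm n
  by_cases hI : IntegrableOn (fun x => ‖f x‖ ^ 2 * x ^ (2 * σ - 1)) (Ioi P)
  swap
  · rw [integral_undef hI]; exact hR0
  have hnn : 0 ≤ᵐ[volume.restrict (Ioi P)] fun x => ‖f x‖ ^ 2 * x ^ (2 * σ - 1) := by
    filter_upwards [ae_restrict_mem measurableSet_Ioi] with x hx
    have : 0 ≤ x := by have := mem_Ioi.mp hx; linarith
    positivity
  rw [← ENNReal.ofReal_le_ofReal_iff hR0, ofReal_integral_eq_lintegral_ofReal hI hnn]
  -- Fatou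
  set F : ℕ → ℝ → ENNReal := fun N x =>
    (Ioc P ((N + 1 : ℝ) * P)).indicator (fun x => ENNReal.ofReal (‖fN N x‖ ^ 2 * x ^ (2 * σ - 1))) x with hF
  have hfc : ∀ N, Continuous (fN N) := by
    intro N
    simp only [hfN]
    unfold ee; fun_prop
  have hFm : ∀ N, Measurable (F N) := by
    intro N
    apply Measurable.indicator _ measurableSet_Ioc
    apply ENNReal.measurable_ofReal.comp
    exact ((hfc N).norm.pow 2).measurable.mul (measurable_id.pow_const _)
  have hFle : ∀ N, ∫⁻ x in Ioi P, F N x ≤ ENNReal.ofReal (3456 * ∑' n, g n) := by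
    intro N
    have hPN : P ≤ (N + 1 : ℝ) * P := by nlinarith [Nat.cast_nonneg (α := ℝ) N]
    have hintN : IntegrableOn (fun x => ‖fN N x‖ ^ 2 * x ^ (2 * σ - 1)) (Ioc P ((N + 1 : ℝ) * P)) := by
      have h1 : ContinuousOn (fun x => ‖fN N x‖ ^ 2 * x ^ (2 * σ - 1)) (Icc P ((N + 1 : ℝ) * P)) := by
        refine ((hfc N).norm.pow 2).continuousOn.mul ?_
        intro x hx
        have : x ≠ 0 := by have := hx.1; intro h; linarith
        exact (Real.continuousAt_rpow_const x _ (Or.inl this)).continuousWithinAt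
      exact (h1.integrableOn_compact isCompact_Icc).mono_set Ioc_subset_Icc_self
    have e1 : ∫⁻ x in Ioi P, F N x = ∫⁻ x in Ioc P ((N + 1 : ℝ) * P),
        ENNReal.ofReal (‖fN N x‖ ^ 2 * x ^ (2 * σ - 1)) := by
      simp only [hF]
      rw [lintegral_indicator measurableSet_Ioc, Measure.restrict_restrict measurableSet_Ioc,
        inter_eq_left.mpr Ioc_subset_Ioi_self]
    rw [e1, ← ofReal_integral_eq_lintegral_ofReal hintN]
    · apply ENNReal.ofReal_le_ofReal
      rw [← intervalIntegral.integral_of_le hPN]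
      exact hfin N N
    · filter_upwards [ae_restrict_mem measurableSet_Ioc] with x hx
      have : 0 ≤ x := by have := hx.1; linarith
      positivity
  have hlimF : ∀ x ∈ Ioi P, Tendsto (fun N => F N x) atTop
      (𝓝 (ENNReal.ofReal (‖f x‖ ^ 2 * x ^ (2 * σ - 1)))) := by
    intro x hx
    have hx0 : 0 < x := by have := mem_Ioi.mp hx; linarith
    have h1 : Tendsto (fun N => ENNReal.ofReal (‖fN N x‖ ^ 2 * x ^ (2 * σ - 1))) atTop
        (𝓝 (ENNReal.ofReal (‖f x‖ ^ 2 * x ^ (2 * σ - 1)))) :=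
      ENNReal.tendsto_ofReal (((hlim x hx0).norm.pow 2).mul_const _)
    refine h1.congr' ?_
    obtain ⟨M, hM⟩ := exists_nat_ge (x / P)
    filter_upwards [eventually_ge_atTop M] with N hN
    simp only [hF]
    rw [indicator_of_mem]
    refine ⟨hx, ?_⟩
    have h2 : x ≤ M * P := by rwa [div_le_iff₀ hP0] at hM
    have h3 : (M : ℝ) ≤ N := by exact_mod_cast hN
    nlinarith
  calc ∫⁻ x in Ioi P, ENNReal.ofReal (‖f x‖ ^ 2 * x ^ (2 * σ - 1))
      = ∫⁻ x in Ioi P, liminf (fun N => F N x) atTop := by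
        apply setLIntegral_congr_fun measurableSet_Ioi
        intro x hx
        exact ((hlimF x hx).liminf_eq).symm
    _ ≤ liminf (fun N => ∫⁻ x in Ioi P, F N x) atTop := lintegral_liminf_le hFm
    _ ≤ ENNReal.ofReal (3456 * ∑' n, g n) := by
        refine liminf_le_of_frequently_le' ?_
        exact Frequently.of_forall hFle

end Pool.Agent.W356.SD
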