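import Pool.Agent.H24R2.DZ.Spec

set_option autoImplicit false

/-!
# Few points are bad (task SC1)
-/

namespace Pool.Agent.W356.SD

open Complex MeasureTheory Set Filter Topology
open Pool.Agent.H24R2.DZ

theorem meas_zeta : Measurable riemannZeta := by
  apply measurable_of_continuousOn_compl_singleton 1
  intro s hs
  exact (differentiableAt_riemannZeta hs).continuousAt.continuousWithinAt

/-- Markov's inequality for a triple integral. -/
theorem markov3 (G : ℝ → ℝ → ℝ → ℝ) (hG : Measurable fun p : ℝ × ℝ × ℝ => G p.1 p.2.1 p.2.2)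
    (x1 x2 R A B M lam : ℝ) (hx : x1 ≤ x2) (hR : 0 ≤ R) (hM : 0 ≤ M) (hl : 0 < lam)
    (h : ∀ x ∈ Ioc x1 x2, ∀ y ∈ Ioc (-R) R, ∫⁻ t in Icc A B, ‖G x y t‖ₑ ≤ ENNReal.ofReal M) :
    volume {t : ℝ | A ≤ t ∧ t ≤ B ∧ lam < ∫ x in x1..x2, ∫ y in (-R)..R, G x y t} ≤
      ENNReal.ofReal ((x2 - x1) * (2 * R) * M / lam) := by
  set Ψ : ℝ → ENNReal := fun t => ∫⁻ x in Ioc x1 x2, ∫⁻ y in Ioc (-R) R, ‖G x y t‖ₑ with hΨ
  have hRR : -R ≤ R := by linarith
  have hmG : Measurable fun p : ℝ × ℝ × ℝ => ‖G p.1 p.2.1 p.2.2‖ₑ := hG.enorm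
  have hm1 : Measurable fun p : ℝ × ℝ => ∫⁻ y in Ioc (-R) R, ‖G p.2 y p.1‖ₑ := by
    apply Measurable.lintegral_prod_right'
      (f := fun q : (ℝ × ℝ) × ℝ => ‖G q.1.2 q.2 q.1.1‖ₑ)
    exact hmG.comp (((measurable_snd.comp measurable_fst)).prodMk
      (measurable_snd.prodMk (measurable_fst.comp measurable_fst)))
  have hmΨ : Measurable Ψ := by
    exact hm1.lintegral_prod_right'
  have hle : ∀ t, ENNReal.ofReal (∫ x in x1..x2, ∫ y in (-R)..R, G x y t) ≤ Ψ t := by
    intro t
    rw [intervalIntegral.integral_of_le hx]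
    calc ENNReal.ofReal (∫ x in Ioc x1 x2, ∫ y in (-R)..R, G x y t)
        ≤ ‖∫ x in Ioc x1 x2, ∫ y in (-R)..R, G x y t‖ₑ := by
          rw [← ofReal_norm]
          exact ENNReal.ofReal_le_ofReal (Real.le_norm_self _)
      _ ≤ ∫⁻ x in Ioc x1 x2, ‖∫ y in (-R)..R, G x y t‖ₑ := enorm_integral_le_lintegral_enorm _
      _ ≤ Ψ t := by
          refine lintegral_mono fun x => ?_
          rw [intervalIntegral.integral_of_le hRR]
          exact enorm_integral_le_lintegral_enorm _
  have hint : ∫⁻ t in Icc A B, Ψ t ≤ ENNReal.ofReal ((x2 - x1) * (2 * R) * M) := by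
    have e1 : ∫⁻ t in Icc A B, Ψ t = ∫⁻ x in Ioc x1 x2, ∫⁻ t in Icc A B, ∫⁻ y in Ioc (-R) R, ‖G x y t‖ₑ := by
      simp only [hΨ]
      rw [lintegral_lintegral_swap]
      exact hm1.aemeasurable
    rw [e1]
    have e2 : ∀ x, ∫⁻ t in Icc A B, ∫⁻ y in Ioc (-R) R, ‖G x y t‖ₑ =
        ∫⁻ y in Ioc (-R) R, ∫⁻ t in Icc A B, ‖G x y t‖ₑ := by
      intro x
      rw [lintegral_lintegral_swap]
      apply Measurable.aemeasurable
      exact hmG.comp (measurable_const.prodMk (measurable_snd.prodMk measurable_fst))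
    simp_rw [e2]
    calc ∫⁻ x in Ioc x1 x2, ∫⁻ y in Ioc (-R) R, ∫⁻ t in Icc A B, ‖G x y t‖ₑ
        ≤ ∫⁻ x in Ioc x1 x2, ∫⁻ y in Ioc (-R) R, ENNReal.ofReal M := by
          refine setLIntegral_mono' measurableSet_Ioc fun x hxx => ?_
          refine setLIntegral_mono' measurableSet_Ioc fun y hy => ?_
          exact h x hxx y hy
      _ = ENNReal.ofReal ((x2 - x1) * (2 * R) * M) := by
          rw [setLIntegral_const, setLIntegral_const, Real.volume_Ioc, Real.volume_Ioc,
            ← ENNReal.ofReal_mul hM, ← ENNReal.ofReal_mul (by apply mul_nonneg hM; linarith)]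
          congr 1
          ring
  have hset : {t : ℝ | A ≤ t ∧ t ≤ B ∧ lam < ∫ x in x1..x2, ∫ y in (-R)..R, G x y t} ⊆
      {t | ENNReal.ofReal lam ≤ Ψ t} ∩ Icc A B := by
    rintro t ⟨h1, h2, h3⟩
    exact ⟨(ENNReal.ofReal_le_ofReal h3.le).trans (hle t), h1, h2⟩
  have hmk := meas_ge_le_lintegral_div (μ := volume.restrict (Icc A B)) hmΨ.aemeasurable
    (ε := ENNReal.ofReal lam) (by simpa using hl) ENNReal.ofReal_ne_top
  calc volume {t : ℝ | A ≤ t ∧ t ≤ B ∧ lam < ∫ x in x1..x2, ∫ y in (-R)..R, G x y t}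
      ≤ volume ({t | ENNReal.ofReal lam ≤ Ψ t} ∩ Icc A B) := measure_mono hset
    _ ≤ volume.restrict (Icc A B) {t | ENNReal.ofReal lam ≤ Ψ t} := Measure.le_restrict_apply _ _
    _ ≤ (∫⁻ t in Icc A B, Ψ t) / ENNReal.ofReal lam := hmk
    _ ≤ ENNReal.ofReal ((x2 - x1) * (2 * R) * M) / ENNReal.ofReal lam := by gcongr
    _ = ENNReal.ofReal ((x2 - x1) * (2 * R) * M / lam) := by
        rw [ENNReal.ofReal_div_of_pos hl]

theorem cont_mT (θ T : ℝ) : Continuous (mT θ T) := by
  unfold mT MM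
  refine continuous_finsetSum _ fun h hh => continuous_const.mul ?_
  have h0 : (h : ℂ) ≠ 0 := by
    have := (Finset.mem_Icc.mp hh).1
    exact_mod_cast (by omega : h ≠ 0)
  have : (fun s : ℂ => (h : ℂ) ^ (-s)) = fun s => cexp (Complex.log h * (-s)) := by
    funext s; rw [Complex.cpow_def_of_ne_zero h0]
  rw [this]
  fun_prop

/-- Shifting the line of integration variable. -/
theorem shift_bound (g : ℝ → ℝ) (T y M : ℝ) (hT : 2 ≤ T) (hy : |y| ≤ 3 / 10)
    (hg : ContinuousOn g (Icc (T / 4) (4 * T))) (hg0 : ∀ t, 0 ≤ g t)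
    (hM : ∫ t in (T / 4)..(4 * T), g t ≤ M) :
    ∫⁻ t in Icc (T / 2) (3 * T), ‖g (t + y)‖ₑ ≤ ENNReal.ofReal M := by
  have hy1 := (abs_le.mp hy).1
  have hy2 := (abs_le.mp hy).2
  have h1 : ∫⁻ t in Icc (T / 2) (3 * T), ‖g (t + y)‖ₑ = ∫⁻ t in Icc (T / 2 + y) (3 * T + y), ‖g t‖ₑ := by
    have hpre : Icc (T / 2) (3 * T) = (fun t => t + y) ⁻¹' Icc (T / 2 + y) (3 * T + y) := by
      ext t; simp
    rw [hpre]
    exact (measurePreserving_add_right volume y).setLIntegral_comp_preimage_emb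
      (measurableEmbedding_addRight y) (fun t => ‖g t‖ₑ) _
  rw [h1]
  calc ∫⁻ t in Icc (T / 2 + y) (3 * T + y), ‖g t‖ₑ ≤ ∫⁻ t in Icc (T / 4) (4 * T), ‖g t‖ₑ := by
        apply lintegral_mono_set
        apply Icc_subset_Icc <;> linarith
    _ = ENNReal.ofReal (∫ t in (T / 4)..(4 * T), g t) := by
        rw [intervalIntegral.integral_of_le (by linarith), ← integral_Icc_eq_integral_Ioc,
          ofReal_integral_eq_lintegral_ofReal (hg.integrableOn_compact isCompact_Icc)
            (Eventually.of_forall hg0)]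
        refine lintegral_congr fun t => ?_
        rw [← ofReal_norm, Real.norm_of_nonneg (hg0 t)]
    _ ≤ ENNReal.ofReal M := ENNReal.ofReal_le_ofReal hM

theorem cont_zeta_line (σ T : ℝ) (hT : 2 ≤ T) :
    ContinuousOn (fun t : ℝ => riemannZeta ((σ : ℂ) + t * I)) (Icc (T / 4) (4 * T)) := by
  intro t ht
  have hne : (σ : ℂ) + t * I ≠ 1 := by
    intro h
    have := congrArg Complex.im h
    simp at this
    have := ht.1
    linarith
  have h1 : ContinuousAt riemannZeta ((σ : ℂ) + t * I) := (differentiableAt_riemannZeta hne).continuousAt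
  have h2 : ContinuousAt (fun t : ℝ => (σ : ℂ) + t * I) t := by fun_prop
  exact (ContinuousAt.comp (f := fun t : ℝ => (σ : ℂ) + t * I) h1 h2).continuousWithinAt

theorem sc1 (h1 : SMV1) (h2 : SMV2) : SC1 := by
  intro η ε hη hε
  set θ := min (1 / 200 : ℝ) (ε / 1000) with hθ
  have hθ0 : 0 < θ := by positivity
  have hθ1 : θ ≤ 1 / 200 := min_le_left _ _
  have hθ2 : θ ≤ ε / 1000 := min_le_right _ _
  obtain ⟨C1, T1, hC1, hT1, H1⟩ := h1 θ hθ0 hθ1
  obtain ⟨C2, T2, hC2, hT2, H2⟩ := h2 θ hθ0 hθ1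
  set K := (1 + 9600 / ε) ^ 20 with hK
  have hK0 : 0 < K := by positivity
  refine ⟨θ, min (θ / 2000) (ε / 2), 1800 * C1 / η + 1800 * C2 * K, 1, max T1 T2, hθ0, hθ1,
    by positivity, by positivity, le_rfl, hT1.trans (le_max_left _ _), ?_⟩
  intro T a hT ha haT
  set c := min (θ / 2000) (ε / 2) with hc
  have hTT1 : T1 ≤ T := (le_max_left _ _).trans hT
  have hTT2 : T2 ≤ T := (le_max_right _ _).trans hT
  have hT2' : 2 ≤ T := hT1.trans hTT1
  have hT0 : 0 < T := by linarith
  have hL : 200 ≤ Real.log T := by linarith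
  have hL0 : 0 < Real.log T := by linarith
  set r := ra T a with hr
  have hr_eq : r * Real.log T = 2 * a := by
    rw [hr]; unfold ra; field_simp
  have hr0 : 0 < r := by rw [hr]; unfold ra; positivity
  have hr1 : r ≤ 1 / 100 := by
    rw [hr]; unfold ra
    rw [div_le_iff₀ (by positivity)]; linarith
  -- first condition
  have B1 : volume {t : ℝ | T / 2 ≤ t ∧ t ≤ 3 * T ∧ η * r ^ 2 < ∫ x in (r / 4000)..(30 * r),
      ∫ y in (-(30 * r))..(30 * r),
      ‖riemannZeta (1 / 2 + x + (t + y) * I) * mT θ T (1 / 2 + x + (t + y) * I) - 1‖ ^ 2} ≤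
      ENNReal.ofReal ((30 * r - r / 4000) * (2 * (30 * r)) * (C1 * T * Real.exp (-(θ * a / 2000))) /
        (η * r ^ 2)) := by
    apply markov3 (fun x y t : ℝ => ‖riemannZeta (1 / 2 + x + (t + y) * I) *
      mT θ T (1 / 2 + x + (t + y) * I) - 1‖ ^ 2)
    · apply Measurable.pow_const
      apply Measurable.norm
      apply Measurable.sub_const
      have hl : Measurable fun p : ℝ × ℝ × ℝ => (1 / 2 + (p.1 : ℂ) + ((p.2.2 : ℂ) + (p.2.1 : ℂ)) * I) := by
        fun_prop
      exact (meas_zeta.comp hl).mul ((cont_mT θ T).measurable.comp hl)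
    · linarith
    · positivity
    · positivity
    · positivity
    · intro x hx y hy
      have hx0 : 0 < x := by linarith [hx.1]
      have hx1 : x ≤ 3 / 10 := by linarith [hx.2]
      have hy1 : |y| ≤ 3 / 10 := by
        rw [abs_le]; constructor <;> linarith [hy.1, hy.2]
      have hb := H1 T (1 / 2 + x) hTT1 (by linarith) (by linarith)
      have hbM : ∫ t in (T / 4)..(4 * T), ‖riemannZeta (((1 / 2 + x : ℝ) : ℂ) + t * I) *
          mT θ T (((1 / 2 + x : ℝ) : ℂ) + t * I) - 1‖ ^ 2 ≤ C1 * T * Real.exp (-(θ * a / 2000)) := by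
        refine hb.trans ?_
        gcongr
        have e1 : θ * a / 2000 = θ * (r / 4000 * Real.log T) := by
          have : r / 4000 * Real.log T = 2 * a / 4000 := by rw [← hr_eq]; ring
          rw [this]; ring
        have e2 : (1 / 2 + x - 1 / 2 : ℝ) = x := by ring
        rw [e1, e2, mul_assoc]
        have := hx.1.le
        gcongr
      have hcont : ContinuousOn (fun t : ℝ => ‖riemannZeta (((1 / 2 + x : ℝ) : ℂ) + t * I) *
          mT θ T (((1 / 2 + x : ℝ) : ℂ) + t * I) - 1‖ ^ 2) (Icc (T / 4) (4 * T)) := by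
        refine ((((cont_zeta_line (1 / 2 + x) T hT2').mul ?_).sub continuousOn_const).norm).pow 2
        exact ((cont_mT θ T).comp (by fun_prop)).continuousOn
      have := shift_bound (fun t : ℝ => ‖riemannZeta (((1 / 2 + x : ℝ) : ℂ) + t * I) *
          mT θ T (((1 / 2 + x : ℝ) : ℂ) + t * I) - 1‖ ^ 2) T y _ hT2' hy1 hcont
          (fun t => by positivity) hbM
      refine le_trans (le_of_eq ?_) this
      refine lintegral_congr fun t => ?_
      push_cast
      rfl
  -- second condition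
  have B2 : volume {t : ℝ | T / 2 ≤ t ∧ t ≤ 3 * T ∧ Real.exp (ε * a) * r ^ 2 < ∫ x in (0 : ℝ)..(30 * r),
      ∫ y in (-(30 * r))..(30 * r),
      ‖riemannZeta (1 / 2 + x + (t + y) * I) * mT θ T (1 / 2 + r + t * I)‖ ^ 2} ≤
      ENNReal.ofReal ((30 * r - 0) * (2 * (30 * r)) *
        (C2 * T * (1 + 120 * a) ^ 20 * Real.exp (240 * θ * a)) /
        (Real.exp (ε * a) * r ^ 2)) := by
    apply markov3 (fun x y t : ℝ => ‖riemannZeta (1 / 2 + x + (t + y) * I) *
      mT θ T (1 / 2 + r + t * I)‖ ^ 2)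
    · apply Measurable.pow_const
      apply Measurable.norm
      have hl : Measurable fun p : ℝ × ℝ × ℝ => (1 / 2 + (p.1 : ℂ) + ((p.2.2 : ℂ) + (p.2.1 : ℂ)) * I) := by
        fun_prop
      have hl2 : Measurable fun p : ℝ × ℝ × ℝ => (1 / 2 + (r : ℂ) + (p.2.2 : ℂ) * I) := by
        fun_prop
      exact (meas_zeta.comp hl).mul ((cont_mT θ T).measurable.comp hl2)
    · linarith
    · positivity
    · positivity
    · positivity
    · intro x hx y hy
      have hx0 : 0 < x := hx.1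
      have hx1 : x ≤ 3 / 10 := by linarith [hx.2]
      have hy1 : |y| ≤ 3 / 10 := by
        rw [abs_le]; constructor <;> linarith [hy.1, hy.2]
      set β : ℂ := ((r - x : ℝ) : ℂ) - (y : ℂ) * I with hβ
      have hβn : ‖β‖ ≤ 60 * r := by
        calc ‖β‖ ≤ ‖((r - x : ℝ) : ℂ)‖ + ‖(y : ℂ) * I‖ := norm_sub_le _ _
          _ = |r - x| + |y| := by
              rw [norm_mul, Complex.norm_I, mul_one, Complex.norm_real, Complex.norm_real,
                Real.norm_eq_abs, Real.norm_eq_abs]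
          _ ≤ 30 * r + 30 * r := by
              gcongr
              · rw [abs_le]; constructor <;> linarith [hx.2]
              · rw [abs_le]; constructor <;> linarith [hy.1, hy.2]
          _ = 60 * r := by ring
      have hb := H2 T (1 / 2 + x) β hTT2 (by linarith) (by linarith) (by linarith)
      have hLβ : Real.log T * ‖β‖ ≤ 120 * a := by
        calc Real.log T * ‖β‖ ≤ Real.log T * (60 * r) := by gcongr
          _ = 60 * (r * Real.log T) := by ring
          _ = 120 * a := by rw [hr_eq]; ring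
      have hbM : ∫ t in (T / 4)..(4 * T), ‖riemannZeta (((1 / 2 + x : ℝ) : ℂ) + t * I) *
          mT θ T (((1 / 2 + x : ℝ) : ℂ) + t * I + β)‖ ^ 2 ≤
          C2 * T * (1 + 120 * a) ^ 20 * Real.exp (240 * θ * a) := by
        refine hb.trans ?_
        have hβ0 : 0 ≤ Real.log T * ‖β‖ := by positivity
        have e1 : 2 * θ * Real.log T * ‖β‖ ≤ 240 * θ * a := by
          calc 2 * θ * Real.log T * ‖β‖ = 2 * θ * (Real.log T * ‖β‖) := by ring
            _ ≤ 2 * θ * (120 * a) := by gcongr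
            _ = 240 * θ * a := by ring
        gcongr
      have hcont : ContinuousOn (fun t : ℝ => ‖riemannZeta (((1 / 2 + x : ℝ) : ℂ) + t * I) *
          mT θ T (((1 / 2 + x : ℝ) : ℂ) + t * I + β)‖ ^ 2) (Icc (T / 4) (4 * T)) := by
        refine (((cont_zeta_line (1 / 2 + x) T hT2').mul ?_).norm).pow 2
        exact ((cont_mT θ T).comp (by fun_prop)).continuousOn
      have := shift_bound (fun t : ℝ => ‖riemannZeta (((1 / 2 + x : ℝ) : ℂ) + t * I) *
          mT θ T (((1 / 2 + x : ℝ) : ℂ) + t * I + β)‖ ^ 2) T y _ hT2' hy1 hcont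
          (fun t => by positivity) hbM
      refine le_trans (le_of_eq ?_) this
      refine lintegral_congr fun t => ?_
      have e2 : (((1 / 2 + x : ℝ) : ℂ) + ((t + y : ℝ) : ℂ) * I + β) = 1 / 2 + r + t * I := by
        rw [hβ]; push_cast; ring
      simp only [e2]
      push_cast
      rfl
  have hsub : {t0 : ℝ | T / 2 ≤ t0 ∧ t0 ≤ 3 * T ∧ ¬ Gd θ η ε T a t0} ⊆
      {t : ℝ | T / 2 ≤ t ∧ t ≤ 3 * T ∧ η * r ^ 2 < ∫ x in (r / 4000)..(30 * r),
      ∫ y in (-(30 * r))..(30 * r),
      ‖riemannZeta (1 / 2 + x + (t + y) * I) * mT θ T (1 / 2 + x + (t + y) * I) - 1‖ ^ 2} ∪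
      {t : ℝ | T / 2 ≤ t ∧ t ≤ 3 * T ∧ Real.exp (ε * a) * r ^ 2 < ∫ x in (0 : ℝ)..(30 * r),
      ∫ y in (-(30 * r))..(30 * r),
      ‖riemannZeta (1 / 2 + x + (t + y) * I) * mT θ T (1 / 2 + r + t * I)‖ ^ 2} := by
    rintro t ⟨ht1, ht2, ht3⟩
    unfold Gd at ht3
    rw [not_and_or, not_le, not_le] at ht3
    rcases ht3 with h | h
    · exact Or.inl ⟨ht1, ht2, h⟩
    · exact Or.inr ⟨ht1, ht2, h⟩
  refine (measure_mono hsub).trans ((measure_union_le _ _).trans ((add_le_add B1 B2).trans ?_))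
  rw [← ENNReal.ofReal_add]
  · apply ENNReal.ofReal_le_ofReal
    have E1 : (30 * r - r / 4000) * (2 * (30 * r)) * (C1 * T * Real.exp (-(θ * a / 2000))) /
        (η * r ^ 2) ≤ 1800 * C1 / η * T * Real.exp (-(c * a)) := by
      rw [div_le_iff₀ (by positivity)]
      have h1 : (30 * r - r / 4000) * (2 * (30 * r)) ≤ 1800 * r ^ 2 := by nlinarith [sq_nonneg r]
      have h2 : Real.exp (-(θ * a / 2000)) ≤ Real.exp (-(c * a)) := by
        apply Real.exp_le_exp.mpr
        have : c ≤ θ / 2000 := min_le_left _ _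
        nlinarith
      calc (30 * r - r / 4000) * (2 * (30 * r)) * (C1 * T * Real.exp (-(θ * a / 2000)))
          ≤ (1800 * r ^ 2) * (C1 * T * Real.exp (-(c * a))) := by gcongr
        _ = 1800 * C1 / η * T * Real.exp (-(c * a)) * (η * r ^ 2) := by
            field_simp
    have E2 : (30 * r - 0) * (2 * (30 * r)) * (C2 * T * (1 + 120 * a) ^ 20 * Real.exp (240 * θ * a)) /
        (Real.exp (ε * a) * r ^ 2) ≤ 1800 * C2 * K * T * Real.exp (-(c * a)) := by
      rw [div_le_iff₀ (by positivity)]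
      have h1 : (1 + 120 * a) ^ 20 ≤ K * Real.exp (ε * a / 4) := by
        have h3 : 1 + 120 * a ≤ (1 + 9600 / ε) * Real.exp (ε * a / 80) := by
          have h4 : 1 + ε * a / 80 ≤ Real.exp (ε * a / 80) := by
            linarith [Real.add_one_le_exp (ε * a / 80)]
          have h5 : 120 * a = 9600 / ε * (ε * a / 80) := by field_simp; ring
          have h6 : 0 ≤ ε * a / 80 := by positivity
          have h7 : 0 < 9600 / ε := by positivity
          calc 1 + 120 * a = 1 + 9600 / ε * (ε * a / 80) := by rw [← h5]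
            _ ≤ (1 + 9600 / ε) * (1 + ε * a / 80) := by nlinarith
            _ ≤ _ := by gcongr
        calc (1 + 120 * a) ^ 20 ≤ ((1 + 9600 / ε) * Real.exp (ε * a / 80)) ^ 20 := by gcongr
          _ = K * Real.exp (ε * a / 4) := by
              rw [mul_pow, ← Real.exp_nat_mul, hK]
              congr 2
              push_cast; ring
      have h2 : Real.exp (ε * a / 4) * Real.exp (240 * θ * a) ≤
          Real.exp (-(c * a)) * Real.exp (ε * a) := by
        rw [← Real.exp_add, ← Real.exp_add]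
        apply Real.exp_le_exp.mpr
        have h3 : c ≤ ε / 2 := min_le_right _ _
        have h4 : c * a ≤ ε / 2 * a := by gcongr
        have h5 : θ * a ≤ ε / 1000 * a := by gcongr
        nlinarith
      calc (30 * r - 0) * (2 * (30 * r)) * (C2 * T * (1 + 120 * a) ^ 20 * Real.exp (240 * θ * a))
          ≤ (30 * r - 0) * (2 * (30 * r)) * (C2 * T * (K * Real.exp (ε * a / 4)) * Real.exp (240 * θ * a)) := by
            have : 0 ≤ (30 * r - 0) * (2 * (30 * r)) := by rw [sub_zero]; positivity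
            gcongr
        _ = 1800 * C2 * K * T * r ^ 2 * (Real.exp (ε * a / 4) * Real.exp (240 * θ * a)) := by ring
        _ ≤ 1800 * C2 * K * T * r ^ 2 * (Real.exp (-(c * a)) * Real.exp (ε * a)) := by gcongr
        _ = _ := by ring
    calc _ ≤ 1800 * C1 / η * T * Real.exp (-(c * a)) + 1800 * C2 * K * T * Real.exp (-(c * a)) :=
          add_le_add E1 E2
      _ = _ := by ring
  · have : 0 ≤ (30 * r - r / 4000) := by linarith
    positivity
  · have : 0 ≤ (30 * r - 0) := by linarith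
    positivity

end Pool.Agent.W356.SD
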